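import Mathlib

set_option autoImplicit false

namespace Pool.Agent.Results.MP_70096d_gt.JohnstoneTop

open Set Topology

/-- Every nonempty directed subset has a supremum. -/
def IsDcpo (P : Type) [PartialOrder P] : Prop :=
  ∀ D : Set P, D.Nonempty → DirectedOn (· ≤ ·) D → ∃ s, IsLUB D s

/-- Scott open sets. -/
def ScottOpen {P : Type} [PartialOrder P] (U : Set P) : Prop :=
  IsUpperSet U ∧ ∀ D : Set P, D.Nonempty → DirectedOn (· ≤ ·) D → ∀ s, IsLUB D s → s ∈ U →
    (D ∩ U).Nonempty

/-- The Scott topology. -/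
def scottTop (P : Type) [PartialOrder P] : TopologicalSpace P where
  IsOpen := ScottOpen
  isOpen_univ := ⟨isUpperSet_univ, fun D hD _ _ _ _ => by rwa [inter_univ]⟩
  isOpen_inter := by
    rintro U V ⟨hU, hU'⟩ ⟨hV, hV'⟩
    refine ⟨hU.inter hV, fun D hD hdir s hs hsUV => ?_⟩
    obtain ⟨x, hxD, hxU⟩ := hU' D hD hdir s hs hsUV.1
    obtain ⟨y, hyD, hyV⟩ := hV' D hD hdir s hs hsUV.2
    obtain ⟨z, hzD, hxz, hyz⟩ := hdir x hxD y hyD
    exact ⟨z, hzD, hU hxz hxU, hV hyz hyV⟩
  isOpen_sUnion := by
    intro S hS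
    refine ⟨isUpperSet_sUnion fun U hU => (hS U hU).1, fun D hD hdir s hs hsU => ?_⟩
    obtain ⟨U, hU, hsU⟩ := hsU
    obtain ⟨x, hxD, hxU⟩ := (hS U hU).2 D hD hdir s hs hsU
    exact ⟨x, hxD, U, hU, hxU⟩

/-- A set is saturated if it is an intersection of open sets. -/
def Saturated {X : Type} (t : TopologicalSpace X) (K : Set X) : Prop :=
  ∃ S : Set (Set X), (∀ V ∈ S, IsOpen[t] V) ∧ K = ⋂₀ S

/-- Well-filtered `T₀` spaces. -/
def WellFiltered (X : Type) (t : TopologicalSpace X) : Prop :=
  @T0Space X t ∧ ∀ F : Set (Set X), F.Nonempty →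
    (∀ K ∈ F, @IsCompact X t K ∧ Saturated t K) →
    (∀ K ∈ F, ∀ K' ∈ F, ∃ K'' ∈ F, K'' ⊆ K ∩ K') →
    ∀ U : Set X, IsOpen[t] U → ⋂₀ F ⊆ U → ∃ K ∈ F, K ⊆ U

/-- A topology is compatible with the order if the closure of `{x}` is `↓x`. -/
def Compatible {P : Type} [PartialOrder P] (t : TopologicalSpace P) : Prop :=
  ∀ x : P, @closure P t {x} = Iic x

/-- A well-filtered dcpo: a dcpo with a compatible well-filtered topology. -/
def IsWellFilteredDcpo (P : Type) [PartialOrder P] : Prop :=
  IsDcpo P ∧ ∃ t : TopologicalSpace P, Compatible t ∧ WellFiltered P t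

/-- If the irreducible closed sets are the principal ideals, the space is well-filtered. -/
theorem wellFiltered_of_sober {P : Type} [PartialOrder P] (t : TopologicalSpace P)
    (hc : Compatible t) (hs : ∀ C : Set P, IsClosed[t] C → @IsIrreducible P t C → ∃ c, C = Iic c) :
    WellFiltered P t := by
  let _ := t
  have hup : ∀ (V : Set P), IsOpen V → IsUpperSet V := by
    intro V hV x y hxy hx
    have h1 : x ∈ closure {y} := by rw [hc y]; exact hxy
    rw [mem_closure_iff] at h1
    obtain ⟨z, hz, hz'⟩ := h1 V hV hx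
    rw [mem_singleton_iff] at hz'
    exact hz' ▸ hz
  constructor
  · refine ⟨fun x y hxy => ?_⟩
    have h1 : closure ({x} : Set P) = closure {y} := inseparable_iff_closure_eq.mp hxy
    rw [hc, hc] at h1
    apply le_antisymm
    · have : x ∈ Iic y := h1 ▸ self_mem_Iic
      exact this
    · have : y ∈ Iic x := h1 ▸ self_mem_Iic
      exact this
  · intro F hF hK hfil U hU hFU
    by_contra hno
    push Not at hno
    set S : Set (Set P) := {C | IsClosed C ∧ C ⊆ Uᶜ ∧ ∀ K ∈ F, (C ∩ K).Nonempty} with hS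
    have hUS : Uᶜ ∈ S := by
      refine ⟨hU.isClosed_compl, subset_rfl, fun K hKF => ?_⟩
      obtain ⟨x, hx, hxU⟩ := not_subset.mp (hno K hKF)
      exact ⟨x, hxU, hx⟩
    obtain ⟨C, hC⟩ := zorn_superset S (by
      intro c hcS hchain
      rcases c.eq_empty_or_nonempty with rfl | hne
      · exact ⟨Uᶜ, hUS, fun s hs => absurd hs (notMem_empty s)⟩
      · refine ⟨⋂₀ c, ⟨isClosed_sInter fun C hC => (hcS hC).1, ?_, ?_⟩, fun s hs => sInter_subset_of_mem hs⟩
        · obtain ⟨C0, hC0⟩ := hne
          exact (sInter_subset_of_mem hC0).trans (hcS hC0).2.1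
        · intro K hKF
          have hfin : ∀ u : Finset c, ∃ C ∈ c, C ⊆ ⋂ i ∈ u, (i : Set P) := by
            classical
            intro u
            induction u using Finset.induction_on with
            | empty =>
              obtain ⟨C0, hC0⟩ := hne
              exact ⟨C0, hC0, by simp⟩
            | insert a s ha ih =>
              obtain ⟨C1, hC1, hsub⟩ := ih
              rcases hchain.total a.2 hC1 with h | h
              · refine ⟨a, a.2, ?_⟩
                rw [Finset.set_biInter_insert]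
                exact subset_inter subset_rfl (h.trans hsub)
              · refine ⟨C1, hC1, ?_⟩
                rw [Finset.set_biInter_insert]
                exact subset_inter h hsub
          have h1 := (hK K hKF).1.inter_iInter_nonempty (fun i : c => (i : Set P))
            (fun i => (hcS i.2).1) (by
              intro u
              obtain ⟨C1, hC1, hsub⟩ := hfin u
              obtain ⟨x, hx1, hx2⟩ := (hcS hC1).2.2 K hKF
              exact ⟨x, hx2, hsub hx1⟩)
          obtain ⟨x, hx1, hx2⟩ := h1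
          refine ⟨x, ?_, hx1⟩
          rw [sInter_eq_iInter]
          exact hx2)
    have hCS : C ∈ S := hC.prop
    have hirr : IsIrreducible C := by
      obtain ⟨K0, hK0⟩ := hF
      obtain ⟨x, hx, _⟩ := hCS.2.2 K0 hK0
      refine ⟨⟨x, hx⟩, ?_⟩
      intro u v hu hv hCu hCv
      by_contra hempty
      have hsmall : ∀ w : Set P, IsOpen w → (C ∩ w).Nonempty → ∃ K ∈ F, ¬ ((C ∩ wᶜ) ∩ K).Nonempty := by
        intro w hw hCw
        by_contra hall
        push Not at hall
        have hmem : C ∩ wᶜ ∈ S :=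
          ⟨hCS.1.inter hw.isClosed_compl, inter_subset_left.trans hCS.2.1, hall⟩
        have h1 : C ⊆ C ∩ wᶜ := hC.le_of_le hmem inter_subset_left
        obtain ⟨y, hy, hyw⟩ := hCw
        exact (h1 hy).2 hyw
      obtain ⟨K1, hK1, h1⟩ := hsmall u hu hCu
      obtain ⟨K2, hK2, h2⟩ := hsmall v hv hCv
      obtain ⟨K3, hK3, h3⟩ := hfil K1 hK1 K2 hK2
      obtain ⟨y, hyC, hyK⟩ := hCS.2.2 K3 hK3
      have hy1 := (h3 hyK).1
      have hy2 := (h3 hyK).2
      apply hempty
      refine ⟨y, hyC, ?_, ?_⟩
      · by_contra hyu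
        exact h1 ⟨y, ⟨hyC, hyu⟩, hy1⟩
      · by_contra hyv
        exact h2 ⟨y, ⟨hyC, hyv⟩, hy2⟩
    obtain ⟨c, hc'⟩ := hs C hCS.1 hirr
    have hcC : c ∈ C := by rw [hc']; exact self_mem_Iic
    have hcF : c ∈ ⋂₀ F := by
      intro K hKF
      obtain ⟨y, hyC, hyK⟩ := hCS.2.2 K hKF
      have hyc : y ≤ c := by rw [hc'] at hyC; exact hyC
      obtain ⟨S', hS', hKS⟩ := (hK K hKF).2
      rw [hKS] at hyK ⊢
      intro V hV
      exact hup V (hS' V hV) hyc (hyK V hV)
    exact hCS.2.1 hcC (hFU hcF)

/-- Johnstone's dcpo with a top element added. -/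
inductive JT : Type
  | fin (j k : ℕ) : JT
  | inf (m : ℕ) : JT
  | top : JT

/-- The order. -/
def JT.le : JT → JT → Prop
  | .fin j k, .fin j' k' => j = j' ∧ k ≤ k'
  | .fin j k, .inf m => j = m ∨ k ≤ m
  | .inf _, .fin _ _ => False
  | .inf m, .inf m' => m = m'
  | _, .top => True
  | .top, .fin _ _ => False
  | .top, .inf _ => False

instance : PartialOrder JT where
  le := JT.le
  le_refl := by
    intro x
    cases x <;> simp [JT.le]
  le_trans := by
    intro x y z hxy hyz
    cases x <;> cases y <;> cases z <;>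
      first
        | exact trivial
        | exact False.elim hxy
        | exact False.elim hyz
        | (simp only [JT.le] at hxy hyz ⊢; omega)
  le_antisymm := by
    intro x y hxy hyx
    cases x <;> cases y <;>
      first
        | rfl
        | exact False.elim hxy
        | exact False.elim hyx
        | (simp only [JT.le] at hxy hyx
           first
             | (obtain ⟨h1, h2⟩ := hxy
                obtain ⟨h3, h4⟩ := hyx
                subst h1
                rw [le_antisymm h2 h4])
             | rw [hxy])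

open JT

theorem le_top' (x : JT) : x ≤ top := by cases x <;> exact trivial

theorem fin_le_fin {j k j' k' : ℕ} : fin j k ≤ fin j' k' ↔ j = j' ∧ k ≤ k' := Iff.rfl

theorem fin_le_inf {j k m : ℕ} : fin j k ≤ inf m ↔ j = m ∨ k ≤ m := Iff.rfl

theorem inf_le_inf {m m' : ℕ} : inf m ≤ inf m' ↔ m = m' := Iff.rfl

theorem not_inf_le_fin {m j k : ℕ} : ¬ inf m ≤ fin j k := fun h => h

theorem not_top_le_fin {j k : ℕ} : ¬ top ≤ fin j k := fun h => h

theorem not_top_le_inf {m : ℕ} : ¬ top ≤ inf m := fun h => h

theorem top_le {x : JT} (h : top ≤ x) : x = top := le_antisymm (le_top' x) h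

/-- Suprema of directed sets that do not contain `top`. -/
theorem exists_lub {D : Set JT} (hne : D.Nonempty) (hD : DirectedOn (· ≤ ·) D) (htop : top ∉ D) :
    ∃ s, s ≠ top ∧ IsLUB D s ∧ ((∀ j k, s = fin j k → s ∈ D)) := by
  by_cases hinf : ∃ m, inf m ∈ D
  · obtain ⟨m, hm⟩ := hinf
    refine ⟨inf m, by simp, ⟨?_, fun u hu => hu hm⟩, by simp⟩
    intro x hx
    obtain ⟨z, hz, hxz, hmz⟩ := hD x hx (inf m) hm
    cases z with
    | fin j k => exact absurd hmz not_inf_le_fin
    | inf m' =>
      rw [inf_le_inf] at hmz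
      rw [hmz]; exact hxz
    | top => exact absurd hz htop
  · push Not at hinf
    have hfin : ∀ x ∈ D, ∃ j k, x = fin j k := by
      intro x hx
      cases x with
      | fin j k => exact ⟨j, k, rfl⟩
      | inf m => exact absurd hx (hinf m)
      | top => exact absurd hx htop
    obtain ⟨x0, hx0⟩ := hne
    obtain ⟨j, k0, rfl⟩ := hfin x0 hx0
    have hcol : ∀ x ∈ D, ∃ k, x = fin j k := by
      intro x hx
      obtain ⟨z, hz, h1, h2⟩ := hD _ hx0 x hx
      obtain ⟨j', k', rfl⟩ := hfin x hx
      obtain ⟨j'', k'', rfl⟩ := hfin z hz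
      rw [fin_le_fin] at h1 h2
      exact ⟨k', by rw [h2.1, ← h1.1]⟩
    by_cases hb : ∃ B, ∀ k, fin j k ∈ D → k ≤ B
    · classical
      obtain ⟨B, hB⟩ := hb
      obtain ⟨K, hK, hmax⟩ : ∃ K, fin j K ∈ D ∧ ∀ k, fin j k ∈ D → k ≤ K := by
        have hex : ∃ K, fin j K ∈ D := ⟨k0, hx0⟩
        have hPB : ∃ b, ∀ k, fin j k ∈ D → k ≤ b := ⟨B, hB⟩
        set b := Nat.find hPB with hb'
        have hb1 : ∀ k, fin j k ∈ D → k ≤ b := Nat.find_spec hPB
        refine ⟨b, ?_, hb1⟩
        by_contra hbD
        have hbpos : 0 < b := by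
          have := hb1 k0 hx0
          rcases Nat.eq_zero_or_pos b with h0 | h0
          · exfalso
            rw [h0] at this hbD
            have : k0 = 0 := by omega
            rw [this] at hx0
            exact hbD hx0
          · exact h0
        have := Nat.find_min hPB (m := b - 1) (by omega)
        apply this
        intro k hk
        have h1 := hb1 k hk
        have h2 : k ≠ b := fun h => hbD (h ▸ hk)
        omega
      refine ⟨fin j K, by simp, ⟨?_, fun u hu => hu hK⟩, fun _ _ _ => hK⟩
      intro x hx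
      obtain ⟨k, rfl⟩ := hcol x hx
      exact ⟨rfl, hmax k hx⟩
    · push Not at hb
      refine ⟨inf j, by simp, ⟨?_, ?_⟩, by simp⟩
      · intro x hx
        obtain ⟨k, rfl⟩ := hcol x hx
        exact Or.inl rfl
      · intro u hu
        cases u with
        | fin j' k' =>
          obtain ⟨k, hk, hlt⟩ := hb k'
          have := hu hk
          rw [fin_le_fin] at this
          omega
        | inf m =>
          obtain ⟨k, hk, hlt⟩ := hb m
          have := hu hk
          rw [fin_le_inf] at this
          rw [inf_le_inf]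
          omega
        | top => exact le_top' _

theorem isDcpo_JT : IsDcpo JT := by
  intro D hne hD
  by_cases h : top ∈ D
  · exact ⟨top, fun x _ => le_top' x, fun u hu => hu h⟩
  · obtain ⟨s, _, hs, _⟩ := exists_lub hne hD h
    exact ⟨s, hs⟩

/-- A directed set with supremum `top` contains `top`. -/
theorem top_mem_of_lub {D : Set JT} (hne : D.Nonempty) (hD : DirectedOn (· ≤ ·) D)
    (h : IsLUB D top) : top ∈ D := by
  by_contra htop
  obtain ⟨s, hs, hs', _⟩ := exists_lub hne hD htop
  exact hs (hs'.unique h)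

theorem fin_mem_of_lub {D : Set JT} (hne : D.Nonempty) (hD : DirectedOn (· ≤ ·) D) {j k : ℕ}
    (h : IsLUB D (fin j k)) : fin j k ∈ D := by
  have htop : top ∉ D := fun ht => not_top_le_fin (h.1 ht)
  obtain ⟨s, _, hs', hs''⟩ := exists_lub hne hD htop
  have e := hs'.unique h
  have := hs'' j k e
  rwa [e] at this

/-- The chain below `inf m`. -/
theorem chain_lub (m : ℕ) : IsLUB (range fun k => fin m k) (inf m) := by
  constructor
  · rintro _ ⟨k, rfl⟩
    exact Or.inl rfl
  · intro u hu
    cases u with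
    | fin j' k' =>
      have := hu ⟨k' + 1, rfl⟩
      change fin m (k' + 1) ≤ fin j' k' at this
      rw [fin_le_fin] at this
      omega
    | inf m' =>
      have := hu ⟨m' + 1, rfl⟩
      change fin m (m' + 1) ≤ inf m' at this
      rw [fin_le_inf] at this
      rw [inf_le_inf]
      omega
    | top => exact le_top' _

theorem chain_directed (m : ℕ) : DirectedOn (· ≤ ·) (range fun k => fin m k) := by
  rintro _ ⟨k, rfl⟩ _ ⟨k', rfl⟩
  exact ⟨fin m (max k k'), ⟨_, rfl⟩, ⟨rfl, le_max_left _ _⟩, ⟨rfl, le_max_right _ _⟩⟩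

/-- A Scott open set containing `inf m` contains almost all `inf m'`. -/
theorem open_inf {U : Set JT} (hU : ScottOpen U) {m : ℕ} (hm : inf m ∈ U) :
    ∃ k, ∀ m', k ≤ m' → inf m' ∈ U := by
  obtain ⟨x, ⟨k, rfl⟩, hk⟩ := hU.2 (range fun k => fin m k) ⟨_, ⟨0, rfl⟩⟩ (chain_directed m) _ (chain_lub m) hm
  exact ⟨k, fun m' hm' => hU.1 (show fin m k ≤ inf m' from Or.inr hm') hk⟩

theorem open_nontop {U : Set JT} (hU : ScottOpen U) {x : JT} (hx : x ∈ U) (hxt : x ≠ top) :
    ∃ k, ∀ m', k ≤ m' → inf m' ∈ U := by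
  cases x with
  | fin j k => exact open_inf hU (hU.1 (show fin j k ≤ inf j from Or.inl rfl) hx)
  | inf m => exact open_inf hU hx
  | top => exact absurd rfl hxt

theorem Iic_compl_open {P : Type} [PartialOrder P] (x : P) : ScottOpen (Iic x)ᶜ := by
  constructor
  · exact (isLowerSet_Iic x).compl
  · intro D hne hD s hs hsx
    by_contra hempty
    apply hsx
    apply hs.2
    intro y hy
    by_contra hyx
    exact hempty ⟨y, hy, hyx⟩

/-- The sober topology: the empty set and the Scott open sets meeting Johnstone's dcpo. -/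
def tau : TopologicalSpace JT where
  IsOpen U := U = ∅ ∨ (ScottOpen U ∧ ∃ x ∈ U, x ≠ top)
  isOpen_univ := Or.inr ⟨(scottTop JT).isOpen_univ, fin 0 0, trivial, by simp⟩
  isOpen_inter := by
    rintro U V (rfl | ⟨hU, x, hx, hxt⟩) (rfl | ⟨hV, y, hy, hyt⟩)
    · left; simp
    · left; simp
    · left; simp
    · right
      refine ⟨(scottTop JT).isOpen_inter U V hU hV, ?_⟩
      obtain ⟨k, hk⟩ := open_nontop hU hx hxt
      obtain ⟨k', hk'⟩ := open_nontop hV hy hyt
      exact ⟨inf (max k k'), ⟨hk _ (le_max_left _ _), hk' _ (le_max_right _ _)⟩, by simp⟩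
  isOpen_sUnion := by
    intro S hS
    by_cases h : ∃ U ∈ S, U ≠ ∅
    · right
      obtain ⟨U, hU, hne⟩ := h
      constructor
      · apply (scottTop JT).isOpen_sUnion
        intro V hV
        rcases hS V hV with rfl | h
        · exact @isOpen_empty JT (scottTop JT)
        · exact h.1
      · rcases hS U hU with h | ⟨_, x, hx, hxt⟩
        · exact absurd h hne
        · exact ⟨x, ⟨U, hU, hx⟩, hxt⟩
    · left
      push Not at h
      rw [sUnion_eq_empty]
      exact h

theorem tau_open {U : Set JT} : IsOpen[tau] U ↔ (U = ∅ ∨ (ScottOpen U ∧ ∃ x ∈ U, x ≠ top)) := Iff.rfl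

theorem Iic_compl_tau (x : JT) : IsOpen[tau] (Iic x)ᶜ := by
  rw [tau_open]
  cases x with
  | fin j k =>
    exact Or.inr ⟨Iic_compl_open _, inf 0, fun h => not_inf_le_fin (show inf 0 ≤ fin j k from h), by simp⟩
  | inf m =>
    refine Or.inr ⟨Iic_compl_open _, inf (m + 1), fun h => ?_, by simp⟩
    have h' : inf (m + 1) ≤ inf m := h
    rw [inf_le_inf] at h'
    omega
  | top =>
    left
    rw [compl_empty_iff]
    exact eq_univ_of_forall fun x => le_top' x

theorem compatible_tau : Compatible tau := by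
  intro x
  let _ := tau
  apply subset_antisymm
  · apply closure_minimal
    · rintro _ rfl; exact self_mem_Iic
    · exact ⟨Iic_compl_tau x⟩
  · intro y hy
    rw [mem_closure_iff]
    intro U hU hyU
    rcases tau_open.mp hU with rfl | ⟨hS, _⟩
    · exact absurd hyU (notMem_empty y)
    · exact ⟨x, hS.1 hy hyU, rfl⟩

/-- Removing a maximal element of finite type from a Scott closed set. -/
theorem remove_max {C : Set JT} (hC : ScottOpen Cᶜ) {j k : ℕ}
    (hmax : ∀ y ∈ C, fin j k ≤ y → y = fin j k) : ScottOpen (C \ {fin j k})ᶜ := by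
  constructor
  · intro a b hab ha hb
    apply ha
    have haC : a ∈ C := by
      by_contra h
      exact hC.1 hab h hb.1
    refine ⟨haC, fun he => ?_⟩
    rw [mem_singleton_iff] at he
    rw [he] at hab
    exact hb.2 (hmax b hb.1 hab)
  · intro D hne hD s hs hsx
    by_contra hempty
    have hDC : ∀ y ∈ D, y ∈ C \ {fin j k} := by
      intro y hy
      by_contra h
      exact hempty ⟨y, hy, h⟩
    apply hsx
    constructor
    · by_contra h
      obtain ⟨y, hy, hyC⟩ := hC.2 D hne hD s hs h
      exact hyC (hDC y hy).1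
    · intro he
      rw [mem_singleton_iff] at he
      rw [he] at hs
      exact (hDC _ (fin_mem_of_lub hne hD hs)).2 rfl

theorem sober_tau (C : Set JT) (hC : IsClosed[tau] C) (hirr : @IsIrreducible JT tau C) :
    ∃ c, C = Iic c := by
  let _ := tau
  by_cases htop : top ∈ C
  · refine ⟨top, ?_⟩
    apply subset_antisymm
    · intro x _; exact le_top' x
    · have h1 : closure ({top} : Set JT) ⊆ C := closure_minimal (by rintro _ rfl; exact htop) hC
      rwa [compatible_tau top] at h1
  · have hopen : IsOpen Cᶜ := hC.isOpen_compl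
    rcases tau_open.mp hopen with hemp | ⟨hS, x0, hx0, hx0t⟩
    · rw [compl_empty_iff] at hemp
      rw [hemp] at htop
      exact absurd (mem_univ top) htop
    have hlow : ∀ {x y : JT}, x ≤ y → y ∈ C → x ∈ C := by
      intro x y hxy hy
      by_contra h
      exact hS.1 hxy h hy
    have hirr' := isIrreducible_iff_sUnion_isClosed.mp hirr
    by_cases hmax : ∃ j k, fin j k ∈ C ∧ ∀ y ∈ C, fin j k ≤ y → y = fin j k
    · obtain ⟨j, k, hjk, hm⟩ := hmax
      have hcl1 : IsClosed (Iic (fin j k)) := ⟨Iic_compl_tau _⟩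
      have hcl2 : IsClosed (C \ {fin j k}) := by
        refine ⟨tau_open.mpr (Or.inr ⟨remove_max hS hm, x0, fun h => hx0 h.1, hx0t⟩)⟩
      classical
      obtain ⟨z, hz, hzC⟩ := hirr' {Iic (fin j k), C \ {fin j k}} (by
        intro z hz
        rw [Finset.mem_insert, Finset.mem_singleton] at hz
        rcases hz with rfl | rfl
        · exact hcl1
        · exact hcl2) (by
        intro y hy
        by_cases hyx : y = fin j k
        · exact ⟨Iic (fin j k), by simp, by rw [hyx]; exact self_mem_Iic⟩
        · exact ⟨C \ {fin j k}, by simp, hy, hyx⟩)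
      rw [Finset.mem_insert, Finset.mem_singleton] at hz
      rcases hz with rfl | rfl
      · refine ⟨fin j k, subset_antisymm hzC fun y hy => hlow hy hjk⟩
      · exact absurd rfl (hzC hjk).2
    · push Not at hmax
      -- every element of `C` lies below some `inf m` in `C`
      have hbelow : ∀ x ∈ C, ∃ m, inf m ∈ C ∧ x ≤ inf m := by
        intro x hx
        cases x with
        | inf m => exact ⟨m, hx, le_refl _⟩
        | top => exact absurd hx htop
        | fin j k =>
          by_contra hno
          push Not at hno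
          have hcol : ∀ k', fin j k' ∈ C := by
            by_contra hnot
            push Not at hnot
            obtain ⟨k', hk'⟩ := hnot
            have hub : ∀ i, fin j i ∈ C → i < k' := by
              intro i hi
              by_contra hge
              exact hk' (hlow (show fin j k' ≤ fin j i from ⟨rfl, not_lt.mp hge⟩) hi)
            -- a maximal index
            have hind : ∀ d i, k' - i = d → k ≤ i → fin j i ∈ C → False := by
              intro d
              induction d using Nat.strong_induction_on with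
              | _ d ih =>
                intro i hd hki hi
                obtain ⟨y, hyC, hle, hne⟩ := hmax j i hi
                cases y with
                | fin j' i' =>
                  rw [fin_le_fin] at hle
                  obtain ⟨rfl, hle⟩ := hle
                  have hlt : i < i' := lt_of_le_of_ne hle (fun h => hne (by rw [h]))
                  have h1 := hub i hi
                  have h2 := hub i' hyC
                  exact ih (k' - i') (by omega) i' rfl (by omega) hyC
                | inf m =>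
                  exact hno m hyC (le_trans (show fin j k ≤ fin j i from ⟨rfl, hki⟩) hle)
                | top => exact htop hyC
            exact hind _ k rfl (le_refl _) hx
          have hinf : inf j ∈ C := by
            by_contra h
            obtain ⟨y, ⟨k', rfl⟩, hy⟩ := hS.2 (range fun k => fin j k) ⟨_, ⟨0, rfl⟩⟩
              (chain_directed j) _ (chain_lub j) h
            exact hy (hcol k')
          exact hno j hinf (Or.inl rfl)
      by_cases hfin : {m | inf m ∈ C}.Finite
      · classical
        obtain ⟨z, hz, hzC⟩ := hirr' (hfin.toFinset.image fun m => Iic (inf m)) (by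
          intro z hz
          rw [Finset.mem_image] at hz
          obtain ⟨m, _, rfl⟩ := hz
          exact ⟨Iic_compl_tau _⟩) (by
          intro y hy
          obtain ⟨m, hm, hym⟩ := hbelow y hy
          refine ⟨Iic (inf m), ?_, hym⟩
          rw [Finset.coe_image]
          exact ⟨m, by simpa using hm, rfl⟩)
        rw [Finset.mem_image] at hz
        obtain ⟨m, hm, rfl⟩ := hz
        refine ⟨inf m, subset_antisymm hzC fun y hy => hlow hy ?_⟩
        simpa using hm
      · -- infinitely many: then `C` contains Johnstone's dcpo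
        exfalso
        have hall : ∀ j k, fin j k ∈ C := by
          intro j k
          obtain ⟨m, hm, hkm⟩ := (Set.not_finite.mp hfin).exists_gt k
          exact hlow (show fin j k ≤ inf m from Or.inr hkm.le) hm
        apply hx0
        cases x0 with
        | fin j k => exact hall j k
        | top => exact absurd rfl hx0t
        | inf m =>
          by_contra h
          obtain ⟨y, ⟨k', rfl⟩, hy⟩ := hS.2 (range fun k => fin m k) ⟨_, ⟨0, rfl⟩⟩
            (chain_directed m) _ (chain_lub m) h
          exact hy (hall m k')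

theorem wf_JT : IsWellFilteredDcpo JT :=
  ⟨isDcpo_JT, tau, compatible_tau, wellFiltered_of_sober tau compatible_tau sober_tau⟩

theorem wf_unit : IsWellFilteredDcpo Unit := by
  have hI : ∀ c : Unit, Iic c = univ := fun c => eq_univ_of_forall fun x =>
    show x ≤ c from le_of_eq (Subsingleton.elim x c)
  have hc : @Compatible Unit _ ⊤ := by
    intro x
    let _ : TopologicalSpace Unit := ⊤
    rw [hI]
    apply eq_univ_of_forall
    intro y
    rw [Subsingleton.elim y x]
    exact subset_closure rfl
  refine ⟨fun D hne _ => ?_, ⊤, hc, wellFiltered_of_sober ⊤ hc ?_⟩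
  · exact ⟨(), fun _ _ => le_of_eq (Subsingleton.elim _ _), fun _ _ => le_of_eq (Subsingleton.elim _ _)⟩
  · intro C _ hirr
    refine ⟨(), ?_⟩
    rw [hI]
    obtain ⟨x, hx⟩ := hirr.1
    apply eq_univ_of_forall
    intro y
    rw [Subsingleton.elim y x]
    exact hx

/-- The compact saturated sets. -/
def Kset (n : ℕ) : Set (JT × Unit) := {x | x.1 = top ∨ ∃ m, n ≤ m ∧ x.1 = inf m}

/-- Slices of Scott open sets of the product with a point are Scott open. -/
theorem slice_open {U : Set (JT × Unit)} (hU : ScottOpen U) : ScottOpen {x : JT | (x, ()) ∈ U} := by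
  constructor
  · intro a b hab ha
    exact hU.1 (show ((a, ()) : JT × Unit) ≤ (b, ()) from ⟨hab, le_refl _⟩) ha
  · intro D hne hD s hs hsU
    have hne' : ((fun x : JT => ((x, ()) : JT × Unit)) '' D).Nonempty := hne.image _
    obtain ⟨y, ⟨x, hx, rfl⟩, hy⟩ := hU.2 ((fun x : JT => ((x, ()) : JT × Unit)) '' D) hne' (by
      rintro _ ⟨a, ha, rfl⟩ _ ⟨b, hb, rfl⟩
      obtain ⟨c, hc, hac, hbc⟩ := hD a ha b hb
      exact ⟨(c, ()), ⟨c, hc, rfl⟩, ⟨hac, le_refl _⟩, ⟨hbc, le_refl _⟩⟩) (s, ()) (by
      constructor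
      · rintro _ ⟨a, ha, rfl⟩
        exact ⟨hs.1 ha, le_refl _⟩
      · intro u hu
        refine ⟨hs.2 ?_, le_of_eq (Subsingleton.elim _ _)⟩
        intro a ha
        exact (hu ⟨a, ha, rfl⟩).1) hsU
    exact ⟨x, hx, hy⟩

theorem Kset_upper (n : ℕ) {x y : JT × Unit} (hxy : x ≤ y) (hx : x ∈ Kset n) : y ∈ Kset n := by
  have h1 : x.1 ≤ y.1 := hxy.1
  rcases hx with h | ⟨m, hm, h⟩
  · rw [h] at h1
    exact Or.inl (top_le h1)
  · rw [h] at h1
    rcases hy : y.1 with ⟨j, k⟩ | m' | _
    · rw [hy] at h1
      exact absurd h1 not_inf_le_fin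
    · rw [hy, inf_le_inf] at h1
      exact Or.inr ⟨m, hm, by rw [hy, h1]⟩
    · exact Or.inl hy

theorem Kset_saturated (n : ℕ) : Saturated (scottTop (JT × Unit)) (Kset n) := by
  refine ⟨{V | ∃ x, x ∉ Kset n ∧ V = (Iic x)ᶜ}, ?_, ?_⟩
  · rintro _ ⟨x, _, rfl⟩
    exact Iic_compl_open x
  · apply subset_antisymm
    · intro y hy V hV
      obtain ⟨x, hx, rfl⟩ := hV
      intro hyx
      exact hx (Kset_upper n hyx hy)
    · intro y hy
      by_contra h
      exact hy (Iic y)ᶜ ⟨y, h, rfl⟩ (show y ≤ y from le_refl y)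

theorem Kset_compact (n : ℕ) : @IsCompact (JT × Unit) (scottTop (JT × Unit)) (Kset n) := by
  let _ : TopologicalSpace (JT × Unit) := scottTop (JT × Unit)
  apply isCompact_of_finite_subcover
  intro ι U hU hcov
  classical
  have hmem : ∀ m, n ≤ m → ∃ i, ((inf m, ()) : JT × Unit) ∈ U i := by
    intro m hm
    have := hcov (show ((inf m, ()) : JT × Unit) ∈ Kset n from Or.inr ⟨m, hm, rfl⟩)
    rwa [mem_iUnion] at this
  obtain ⟨i0, hi0⟩ := hmem n le_rfl
  have hS0 : ScottOpen {x : JT | (x, ()) ∈ U i0} := slice_open (hU i0)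
  obtain ⟨k, hk⟩ := open_inf hS0 (m := n) hi0
  have htop : ((top, ()) : JT × Unit) ∈ U i0 := hS0.1 (le_top' (inf n)) hi0
  have hne : Nonempty ι := ⟨i0⟩
  choose! g hg using hmem
  refine ⟨insert i0 ((Finset.range k).image g), ?_⟩
  rintro ⟨x, u⟩ hx
  rw [mem_iUnion₂]
  rcases hx with h | ⟨m, hm, h⟩
  · refine ⟨i0, Finset.mem_insert_self _ _, ?_⟩
    change x = top at h
    rw [h]; exact htop
  · change x = inf m at h
    rw [h]
    by_cases hmk : k ≤ m
    · exact ⟨i0, Finset.mem_insert_self _ _, hk m hmk⟩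
    · refine ⟨g m, Finset.mem_insert_of_mem (Finset.mem_image_of_mem _ ?_), hg m hm⟩
      rw [Finset.mem_range]; omega

theorem top_open : ScottOpen {x : JT × Unit | x.1 = top} := by
  constructor
  · intro a b hab ha
    have h1 : a.1 ≤ b.1 := hab.1
    rw [mem_ofPred_eq] at ha ⊢
    rw [ha] at h1
    exact top_le h1
  · intro D hne hD s hs hsU
    rw [mem_ofPred_eq] at hsU
    have h1 : top ∈ Prod.fst '' D := by
      apply top_mem_of_lub (hne.image _)
      · rintro _ ⟨a, ha, rfl⟩ _ ⟨b, hb, rfl⟩
        obtain ⟨c, hc, hac, hbc⟩ := hD a ha b hb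
        exact ⟨c.1, ⟨c, hc, rfl⟩, hac.1, hbc.1⟩
      · constructor
        · rintro _ ⟨a, ha, rfl⟩
          exact le_top' _
        · intro u hu
          have h2 : s ≤ (u, ()) := hs.2 (fun a ha => ⟨hu ⟨a, ha, rfl⟩, le_of_eq (Subsingleton.elim _ _)⟩)
          have h3 : s.1 ≤ u := h2.1
          rwa [hsU] at h3
    obtain ⟨a, ha, hat⟩ := h1
    exact ⟨a, ha, hat⟩

/-- The Scott topology of the product dcpo `JT × Unit` is not well-filtered. -/
theorem not_wf : ¬ WellFiltered (JT × Unit) (scottTop (JT × Unit)) := by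
  rintro ⟨_, h⟩
  obtain ⟨K, ⟨n, rfl⟩, hK⟩ := h (range Kset) ⟨_, ⟨0, rfl⟩⟩ (by
    rintro _ ⟨n, rfl⟩
    exact ⟨Kset_compact n, Kset_saturated n⟩) (by
    rintro _ ⟨n, rfl⟩ _ ⟨n', rfl⟩
    refine ⟨Kset (max n n'), ⟨_, rfl⟩, ?_⟩
    rintro x (hx | ⟨m, hm, hx⟩)
    · exact ⟨Or.inl hx, Or.inl hx⟩
    · exact ⟨Or.inr ⟨m, le_trans (le_max_left _ _) hm, hx⟩,
        Or.inr ⟨m, le_trans (le_max_right _ _) hm, hx⟩⟩)
    {x : JT × Unit | x.1 = top} top_open (by
    intro x hx
    rcases hx (Kset 0) ⟨0, rfl⟩ with h0 | ⟨m, _, h0⟩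
    · exact h0
    · rcases hx (Kset (m + 1)) ⟨m + 1, rfl⟩ with h1 | ⟨m', hm', h1⟩
      · exact h1
      · rw [h0] at h1
        injection h1 with h2
        omega)
  have h1 : ((inf n, ()) : JT × Unit) ∈ Kset n := Or.inr ⟨n, le_rfl, rfl⟩
  have h2 := hK h1
  rw [mem_ofPred_eq] at h2
  exact absurd h2 (by simp)

/-- There are well-filtered dcpos `P` and `Q` such that the Scott topology of `P × Q` is not
well-filtered. -/
theorem result : ∃ (P Q : Type) (_ : PartialOrder P) (_ : PartialOrder Q),
    IsWellFilteredDcpo P ∧ IsWellFilteredDcpo Q ∧ ¬ WellFiltered (P × Q) (scottTop (P × Q)) :=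
  ⟨JT, Unit, inferInstance, inferInstance, wf_JT, wf_unit, not_wf⟩

end Pool.Agent.Results.MP_70096d_gt.JohnstoneTop
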